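import Pool.Agent.Helper54.UN.St

/-!
# Project UN, part C, module SEGM: points of a line and segments
-/

set_option autoImplicit false

noncomputable section

namespace Pool.Agent.Helper99.UNC

open Set Filter Topology Pool.Agent.Helper71.UN Pool.Agent.Helper54.UN

theorem hSEGM : StSEGM := by
  intro P Q x hPQ h0
  rw [lf_eq] at h0
  have hd : (Q.re - P.re) ^ 2 + (Q.im - P.im) ^ 2 ≠ 0 := by
    intro h
    apply hPQ
    have h1 : Q.re - P.re = 0 := by nlinarith [sq_nonneg (Q.re - P.re), sq_nonneg (Q.im - P.im)]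
    have h2 : Q.im - P.im = 0 := by nlinarith [sq_nonneg (Q.re - P.re), sq_nonneg (Q.im - P.im)]
    exact Complex.ext (by linarith) (by linarith)
  obtain ⟨u, hu⟩ : ∃ u : ℝ, u * ((Q.re - P.re) ^ 2 + (Q.im - P.im) ^ 2)
      = (x.re - P.re) * (Q.re - P.re) + (x.im - P.im) * (Q.im - P.im) :=
    ⟨((x.re - P.re) * (Q.re - P.re) + (x.im - P.im) * (Q.im - P.im)) /
      ((Q.re - P.re) ^ 2 + (Q.im - P.im) ^ 2), by field_simp⟩
  have hx : x = P + u * (Q - P) := by
    apply Complex.ext
    · simp only [Complex.add_re, Complex.mul_re, Complex.ofReal_re, Complex.ofReal_im,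
        Complex.sub_re, zero_mul, sub_zero]
      apply mul_right_cancel₀ hd
      linear_combination (-(Q.re - P.re)) * hu - (Q.im - P.im) * h0
    · simp only [Complex.add_im, Complex.mul_im, Complex.ofReal_re, Complex.ofReal_im,
        Complex.sub_im, zero_mul, add_zero]
      apply mul_right_cancel₀ hd
      linear_combination (-(Q.im - P.im)) * hu + (Q.re - P.re) * h0
  refine ⟨u, hx, fun h1 h2 => ?_, fun R S => ?_⟩
  · refine ⟨1 - u, u, by linarith, h1, by ring, ?_⟩
    rw [Complex.real_smul, Complex.real_smul, hx]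
    push_cast
    ring
  · conv_lhs => rw [hx]
    exact lf_comb R S P Q u

end Pool.Agent.Helper99.UNC
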